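import Pool.Agent.Helper98.T5b.SplitInst

/-!
# T5b: injectivity across a split, short distance

If the digits between the two states are below the joint front of the lower state, the sum
`c0 x + cs y + c0' x'` determines `x`, `y`, `x'` up to a constant number of choices.
-/

set_option autoImplicit false

namespace Pool.Agent.Helper21.T5b

open Finset Pool.Agent.Helper27.T4 Pool.Agent.Helper84.T5b Pool.Agent.Helper37.T5b
  Pool.Agent.Helper30.T5b Pool.Agent.Helper27.T5b Pool.Agent.Helper54.T5b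
open Pool.Agent.Helper5.ET hiding Key keysOf Mk
open Pool.Agent.Helper3.T5 Pool.Agent.Helper39.T5 Pool.Agent.Helper98.T5
open Pool.Agent.Helper22.HW Pool.Agent.Helper22.SL Pool.Agent.Helper57.T5
open Pool.Agent.Helper98.T5b

variable {m k l' l : ℕ}

/-- **INJ across a split** -/
theorem inj_split (hm : 0 < m) (h : SplitDig m k l' l) (hr : 0 < rL m k l)
    (hz : ∀ f, zf m k (sL m k l) f ≠ 0)
    (hQk : QQ m k (sL m k l) 0 ≤ (M0 m k l' l).q)
    (hAA : FF m k l 0 ≤ FF m k l' 0) (hf : l ≤ ef m k l' 0) (w : Key → ℕ) (s : ℕ) :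
    (((XJ m k l ×ˢ XJ m k l') ×ˢ Ys m k l 0).filter (fun z =>
        c0 m k l w z.1.1 + cs m k l 0 w (okey m k l 0 z.1.1) z.2 + c0 m k l' w z.1.2 = s)).card ≤
      (M0 m k l' l).C * ∏ f, (2 * (pz k (sL m k l) f - 1)) := by
  classical
  have hP : (SSp m k l' l).Ok (Mk m k) := SSp_ok hm h hr hQk (by rw [← FF_low h]; exact hAA)
  have hc : ∀ i, (SSp m k l' l).M.c i ≤ (SSp m k l' l).M.e' i := fun i => aJ_mono hf i
  set Z := (SSp m k l' l).M.prs hP.m w (SSp m k l' l).M.c s with hZ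
  have hZc : Z.card ≤ (M0 m k l' l).C := by
    have h1 := Pool.Agent.Helper18.T5.base_count hP.m w (SSp m k l' l).M.c hc s
    refine h1.trans (le_of_eq ?_)
    have h2 : ∏ i, (SSp m k l' l).M.p i ^ (((SSp m k l' l).M.c i + (SSp m k l' l).M.c' i -
        2 * (SSp m k l' l).M.c i) / 2) = 1 := by
      refine Finset.prod_eq_one (fun i _ => ?_)
      have h3 := hP.m.cc i
      have h4 : ((SSp m k l' l).M.c i + (SSp m k l' l).M.c' i -
        2 * (SSp m k l' l).M.c i) / 2 = 0 := by omega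
      rw [h4, pow_zero]
    rw [h2, mul_one]
    rfl
  set F := (((XJ m k l ×ˢ XJ m k l') ×ˢ Ys m k l 0).filter (fun z =>
    c0 m k l w z.1.1 + cs m k l 0 w (okey m k l 0 z.1.1) z.2 + c0 m k l' w z.1.2 = s)).image
      (fun z => lab z.1.1 z.1.2 z.2) with hF
  have hFc : F.card = (((XJ m k l ×ˢ XJ m k l') ×ˢ Ys m k l 0).filter (fun z =>
      c0 m k l w z.1.1 + cs m k l 0 w (okey m k l 0 z.1.1) z.2 + c0 m k l' w z.1.2 = s)).card := by
    refine Finset.card_image_of_injOn ?_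
    intro z _ z' _ he
    have e1 : z.1.1 = z'.1.1 := congrArg (fun q : Lb JF => q.1.1) he
    have e2 : lowJ z.1.2 = lowJ z'.1.2 := congrArg (fun q : Lb JF => q.1.2) he
    have e3 : z.2 = z'.2 := congrArg (fun q : Lb JF => q.2.1) he
    have e4 : nbv z.1.2 = nbv z'.1.2 := congrArg (fun q : Lb JF => q.2.2) he
    exact Prod.ext (Prod.ext e1 (lowJ_nbv_inj e2 e4)) e3
  rw [← hFc]
  have h5 : F.card ≤ Z.card * (SSp m k l' l).CQ := by
    refine over_main hP w s Z F (fun q hq => ?_)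
    rw [hF, mem_image] at hq
    obtain ⟨z, hzz, rfl⟩ := hq
    rw [mem_filter, mem_product, mem_product] at hzz
    obtain ⟨⟨⟨a1, a2⟩, a3⟩, a4⟩ := hzz
    have hg := gd_of hm h hr hz w a1 a2 a3
    rw [a4] at hg
    refine ⟨SP.mem_H.2 ⟨_, hg⟩, ?_⟩
    rw [hZ]
    exact hg.prs hP hc (fun i hi => absurd (mem_univ i) hi)
  refine h5.trans (Nat.mul_le_mul hZc (le_of_eq ?_))
  unfold SP.CQ
  rfl

end Pool.Agent.Helper21.T5b
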