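import Pool.Agent.Helper1.T5.CondStatic
import Pool.Agent.Helper39.SL.Union

/-!
# T5b: near pairs, assembly with abstract labels

The labels are a finite set `La` of any type (for a pair across a split: `((x, x'), y)`) with values
`V w z` which depend only on the keys `K1`; the windows depend only on the keys `K2`; below there
are the static levels `P : Pr`.  This is `Pool.Agent.Helper1.T5.near_count` for abstract labels.
-/

namespace Pool.Agent.Helper21.T5b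

open Finset Pool.Agent.Helper22.SL Pool.Agent.Helper27.T4 Pool.Agent.Helper29.T4
  Pool.Agent.Helper22.HW Pool.Agent.Helper39.SL Pool.Agent.Helper1.T5

variable {α κ : Type*} {Mk : κ → ℕ} {P : Pr κ}

/-- the labels which fit to `n` -/
def LbA (P : Pr κ) (La : Finset α) (V : α → ℕ) (n : ℕ) : Finset α :=
  La.filter (fun z => V z ≤ n ∧ P.M' ∣ n - V z)

/-- the targets of `n` -/
def TgA (P : Pr κ) (La : Finset α) (V : α → ℕ) (n : ℕ) : Finset ℕ :=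
  (LbA P La V n).image (fun z => n - V z)

theorem LbA_congr {La : Finset α} {V V' : α → ℕ} (h : ∀ z ∈ La, V z = V' z) (n : ℕ) :
    LbA P La V n = LbA P La V' n := by
  unfold LbA
  refine Finset.filter_congr (fun z hz => ?_)
  rw [h z hz]

theorem TgA_congr {La : Finset α} {V V' : α → ℕ} (h : ∀ z ∈ La, V z = V' z) (n : ℕ) :
    TgA P La V n = TgA P La V' n := by
  unfold TgA
  rw [LbA_congr h n]
  refine Finset.image_congr (fun z hz => ?_)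
  rw [h z (Finset.mem_filter.1 (Finset.mem_coe.1 hz)).1]

/-- elements with a representation are multiples of `M'` -/
theorem rep_dvd' {c : ℕ → (Fin 3 → ℕ) → ℕ} {m : ℕ} {B U : Finset ℕ}
    (hc : ∀ r < P.h, ∀ y, P.M' ∣ c r y) (hm : P.M' ∣ m) (hU : Rep P c m B U) {u : ℕ}
    (hu : u ∈ U) : P.M' ∣ u := by
  obtain ⟨y, _, b, _, rfl⟩ := hU u hu
  refine dvd_add (Finset.dvd_sum fun r hr => hc r (Finset.mem_range.1 hr) _) ?_
  exact (hm.trans (dvd_mul_right _ _)).trans (dvd_mul_right _ _)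

theorem M'_dvd_cU1 (hP : P.Ok Mk) (w : κ → ℕ) {r : ℕ} (hr : r < P.h) (y : Fin 3 → ℕ) :
    P.M' ∣ cU hP w r y :=
  ((hP.M'F' (r + 1) hr).trans (hP.F'F (r + 1) hr)).trans
    ((dvd_mul_right _ _).trans (dvd_cU hP w r y))

theorem M'_dvd_cU1' (hP : P.Ok Mk) (w : κ → ℕ) {r : ℕ} (hr : r < P.h) (y : Fin 3 → ℕ) :
    P.M' ∣ cU' hP w r y :=
  (hP.M'F' (r + 1) hr).trans ((dvd_mul_right _ _).trans (dvd_cU' hP w r y))

/-- the number of solutions for fixed tables -/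
theorem count_lab (hP : P.Ok Mk) (w : κ → ℕ) {n CI N R0 I : ℕ} {X : ℕ → ℕ}
    {La : Finset α} {V : α → ℕ}
    {B B' U U' : Finset ℕ} (hU : Rep P (cU hP w) P.M B U) (hU' : Rep P (cU' hP w) P.M' B' U')
    (hsurj : ∀ t ∈ TgA P La V n, ∃ i < I, X i = t)
    (hCI : ∀ s, (La.filter (fun z => V z = s)).card ≤ CI)
    (hleaf : ∀ t, ((B ×ˢ B').filter
      (fun q => P.M * P.L P.h * q.1 + P.M' * P.L P.h * q.2 = t)).card ≤ R0)
    (hnM : ¬ Many P w I X B B' N) :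
    ((La ×ˢ (U ×ˢ U')).filter (fun z => V z.1 + (z.2.1 + z.2.2) = n)).card
      ≤ CI * (N * (Cd P * R0)) := by
  classical
  set G := (La ×ˢ (U ×ˢ U')).filter (fun z => V z.1 + (z.2.1 + z.2.2) = n) with hG
  choose! g hg using hsurj
  have hlab : ∀ z ∈ G, n - V z.1 ∈ TgA P La V n ∧ n - V z.1 = z.2.1 + z.2.2 := by
    intro z hz
    obtain ⟨h1, h2⟩ := Finset.mem_filter.1 hz
    obtain ⟨h3, h4⟩ := Finset.mem_product.1 h1
    obtain ⟨h5, h6⟩ := Finset.mem_product.1 h4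
    have d1 : P.M' ∣ z.2.1 := rep_dvd' (fun r hr y => M'_dvd_cU1 hP w hr y) hP.M'M hU h5
    have d2 : P.M' ∣ z.2.2 := rep_dvd' (fun r hr y => M'_dvd_cU1' hP w hr y) dvd_rfl hU' h6
    have e : n - V z.1 = z.2.1 + z.2.2 := by omega
    refine ⟨?_, e⟩
    unfold TgA
    refine Finset.mem_image.2 ⟨z.1, ?_, rfl⟩
    unfold LbA
    exact Finset.mem_filter.2 ⟨h3, by omega, e ▸ dvd_add d1 d2⟩
  have hmem : ∀ z ∈ G, g (n - V z.1) < I ∧ X (g (n - V z.1)) = n - V z.1 :=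
    fun z hz => hg _ (hlab z hz).1
  have h1 : G.card ≤ CI * ((range I ×ˢ (U ×ˢ U')).filter
      (fun t => t.2.1 + t.2.2 = X t.1)).card := by
    refine Finset.card_le_mul_card_image_of_maps_to
      (f := fun z : α × (ℕ × ℕ) => ((g (n - V z.1), z.2) : ℕ × (ℕ × ℕ))) ?_ CI ?_
    · intro z hz
      obtain ⟨h2, h3⟩ := hmem z hz
      refine Finset.mem_filter.2 ⟨Finset.mem_product.2 ⟨Finset.mem_range.2 h2,
        (Finset.mem_product.1 (Finset.mem_filter.1 hz).1).2⟩, ?_⟩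
      show z.2.1 + z.2.2 = X (g (n - V z.1))
      rw [h3, (hlab z hz).2]
    · rintro ⟨j, u, u'⟩ _
      refine le_trans (Finset.card_le_card_of_injOn
        (fun z : α × (ℕ × ℕ) => z.1) ?_ ?_) (hCI (n - (u + u')))
      · intro z hz
        have hz' := Finset.mem_filter.1 (Finset.mem_coe.1 hz)
        obtain ⟨h3, h4⟩ := Finset.mem_filter.1 hz'.1
        have h5 : z.2 = (u, u') := (Prod.mk.inj hz'.2).2
        refine Finset.mem_coe.2 (Finset.mem_filter.2 ⟨(Finset.mem_product.1 h3).1, ?_⟩)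
        rw [h5] at h4
        show V z.1 = n - (u + u')
        simp only at h4
        omega
      · intro z hz z' hz' he
        have a := (Prod.mk.inj (Finset.mem_filter.1 (Finset.mem_coe.1 hz)).2).2
        have a' := (Prod.mk.inj (Finset.mem_filter.1 (Finset.mem_coe.1 hz')).2).2
        exact Prod.ext he (a.trans a'.symm)
  exact h1.trans (Nat.mul_le_mul_left _ (link_count hP w hU hU' (leaf_bound' hP w hU hU' hleaf)
    hnM))

variable [DecidableEq κ]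

/-- **near pairs, assembly with abstract labels and contexts**: the levels and the windows of a
label `z` depend on its context `ctx z` (outer keys) -/
theorem near_ctx {γ : Type*} [DecidableEq γ] {Pc : γ → Pr κ} {Cx : Finset γ}
    (hP : ∀ c, (Pc c).Ok Mk) (hMk : ∀ k, 0 < Mk k) {K1 K2 K : Finset κ}
    (h12 : Disjoint K1 K2) (h1 : K1 ⊆ K) (h2 : K2 ⊆ K)
    {La : Finset α} (ctx : α → γ) {V : (κ → ℕ) → α → ℕ}
    (hV : ∀ w w' : κ → ℕ, (∀ k ∈ K1, w k = w' k) → ∀ z ∈ La, V w z = V w' z)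
    (hKP : ∀ c ∈ Cx, ∀ r < (Pc c).h, ∀ i, ∀ y ∈ (Pc c).Y r,
      (Pc c).key r i y ∈ K \ (K1 ∪ K2) ∧ (Pc c).key' r i y ∈ K \ (K1 ∪ K2))
    (Bw Bw' U U' : γ → (κ → ℕ) → Finset ℕ)
    (hdep : ∀ c ∈ Cx, ∀ w w' : κ → ℕ, (∀ k ∈ K2, w k = w' k) → Bw c w = Bw c w' ∧
      Bw' c w = Bw' c w')
    (hU : ∀ c ∈ Cx, ∀ w, Rep (Pc c) (cU (hP c) w) (Pc c).M (Bw c w) (U c w))
    (hU' : ∀ c ∈ Cx, ∀ w, Rep (Pc c) (cU' (hP c) w) (Pc c).M' (Bw' c w) (U' c w))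
    {n1 I R0 : ℕ} {Ir : ℕ → ℕ}
    (hTg : ∀ c ∈ Cx, ∀ w, (∀ k, w k < Mk k) → ∀ n < n1,
      TgS (Pc c) (TgA (Pc c) (La.filter (fun z => ctx z = c)) (V w) n) Ir)
    (hI : ∀ c ∈ Cx, ∀ w, (∀ k, w k < Mk k) → ∀ n < n1,
      (TgA (Pc c) (La.filter (fun z => ctx z = c)) (V w) n).card ≤ I)
    {ρ Γ : ℝ} (hρ : 0 ≤ ρ)
    (hA : ∀ c ∈ Cx, ∀ r < (Pc c).h, 80 * I * (Pc c).A r * (Pc c).p r 0 * (Pc c).p r 2 *
      Real.sqrt ((Pc c).q r 1) ≤ ρ * (Pc c).q r 1)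
    (hB : ∀ c ∈ Cx, ∀ r < (Pc c).h, 1 ≤ r → Ir r * (Pc c).A r * (Pc c).pc r ≤ ρ)
    (hΓ : ∀ c ∈ Cx, ∀ r < (Pc c).h,
      ((Pc c).q r 0 * (Pc c).q r 1 : ℕ) * ((Pc c).W r * (Pc c).q r 1) ≤ Γ)
    (hΓ' : ∀ c ∈ Cx, (Pc c).W (Pc c).h ≤ Γ)
    {A : (κ → ℕ) → Prop} {δ : ℝ} (hbad : PrG Mk K2 A δ)
    (hPP : ∀ c ∈ Cx, ∀ w : κ → ℕ, (∀ k, w k < Mk k) → ¬ A w → ∀ (J : ℕ) (X : ℕ → ℕ), J ≤ I →
      Tg (Pc c) J X Ir → (∀ i < J, X i < n1) →
      PP (Pc c) J X (Bw c w) (Bw' c w) * (Pc c).A (Pc c).h * (Pc c).pc (Pc c).h ≤ ρ)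
    (hleaf : ∀ c ∈ Cx, ∀ w : κ → ℕ, (∀ k, w k < Mk k) → ¬ A w → ∀ t,
      ((Bw c w ×ˢ Bw' c w).filter (fun q => (Pc c).M * (Pc c).L (Pc c).h * q.1 +
        (Pc c).M' * (Pc c).L (Pc c).h * q.2 = t)).card ≤ R0)
    {CI : ℕ} {ε : ℝ} (hε : 0 ≤ ε)
    (hmult : PrG Mk K1 (fun w => ∃ s : ℕ, CI < (La.filter (fun z => V w z = s)).card) ε)
    {m : ℕ} (hm : 1 ≤ m) :
    PrG Mk K (fun w => ∃ c ∈ Cx, ∃ n < n1,
      CI * ((m + 1) ^ 2 ^ (4 * (Pc c).h) * (Cd (Pc c) * R0)) <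
      ((La.filter (fun z => ctx z = c) ×ˢ (U c w ×ˢ U' c w)).filter
        (fun z => V w z.1 + (z.2.1 + z.2.2) = n)).card)
      (δ + (ε + ∑ c ∈ Cx, n1 * ((3 * (Pc c).h + 1) * Γ * ρ ^ (m + 1)))) := by
  classical
  have hterm : ∀ c ∈ Cx, 0 ≤ (n1 : ℝ) * ((3 * (Pc c).h + 1) * Γ * ρ ^ (m + 1)) := by
    intro c hc
    have hΓ0 : 0 ≤ Γ := by
      refine le_trans ?_ (hΓ' c hc)
      unfold Pr.W
      exact Finset.prod_nonneg (fun _ _ => by positivity)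
    positivity
  have hsum : 0 ≤ ∑ c ∈ Cx, (n1 : ℝ) * ((3 * (Pc c).h + 1) * Γ * ρ ^ (m + 1)) :=
    Finset.sum_nonneg hterm
  -- the windows
  refine PrG_cond_bad h2 (by positivity) hbad ?_
  intro r2 hr2 hA2
  set w2 := ext K2 r2 with hw2
  have hw2lt : ∀ k, w2 k < Mk k := fun k => ext_lt hMk hr2 k
  have h1' : K1 ⊆ K \ K2 := fun k hk =>
    Finset.mem_sdiff.2 ⟨h1 hk, fun hk2 => Finset.disjoint_left.1 h12 hk hk2⟩
  -- the keys of the labels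
  refine PrG_cond_bad h1' hsum hmult ?_
  intro r1 hr1 hm1
  set w1 := ext K1 r1 with hw1
  have hw1lt : ∀ k, w1 k < Mk k := fun k => ext_lt hMk hr1 k
  push Not at hm1
  have hKK : (K \ K2) \ K1 = K \ (K1 ∪ K2) := by
    apply Finset.ext
    intro k
    simp only [Finset.mem_sdiff, Finset.mem_union]
    tauto
  rw [hKK]
  -- the enumerations of the targets
  have hen := fun (c : γ) (n : ℕ) =>
    exists_enum (TgA (Pc c) (La.filter (fun z => ctx z = c)) (V w1) n)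
  choose X hX1 hX2 hX3 using hen
  have hTgX : ∀ c ∈ Cx, ∀ n < n1,
      Tg (Pc c) (TgA (Pc c) (La.filter (fun z => ctx z = c)) (V w1) n).card (X c n) Ir :=
    fun c hc n hn => (hTg c hc w1 hw1lt n hn).tg (hX1 c n) (hX2 c n)
  have e1 : PrG Mk (K \ (K1 ∪ K2)) (fun w => ∃ c ∈ Cx, ∃ n ∈ range n1,
      Many (Pc c) w (TgA (Pc c) (La.filter (fun z => ctx z = c)) (V w1) n).card (X c n)
        (Bw c w2) (Bw' c w2) ((m + 1) ^ 2 ^ (4 * (Pc c).h)))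
      (∑ c ∈ Cx, ∑ _n ∈ range n1, (3 * (Pc c).h + 1) * Γ * ρ ^ (m + 1)) := by
    refine PrG_exists _ (fun c hc => PrG_exists _ (fun n hn => ?_))
    have hn' := Finset.mem_range.1 hn
    refine static_block (hP c) (hTgX c hc n hn') hMk (fun r hr i y hy => hKP c hc r hr i y hy)
      _ _ hρ ?_ (hB c hc) ?_ (hΓ c hc) (hΓ' c hc) hm
    · intro r hr
      refine le_trans ?_ (hA c hc r hr)
      have hc1 : ((TgA (Pc c) (La.filter (fun z => ctx z = c)) (V w1) n).card : ℝ) ≤ I := by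
        exact_mod_cast hI c hc w1 hw1lt n hn'
      have h3 := Pr.A_nonneg (Pc c) r
      gcongr
    · refine hPP c hc w2 hw2lt hA2 _ _ (hI c hc w1 hw1lt n hn') (hTgX c hc n hn') (fun i hi => ?_)
      obtain ⟨z, _, hz⟩ := Finset.mem_image.1 (hX1 c n i hi)
      rw [← hz]
      exact lt_of_le_of_lt (Nat.sub_le _ _) hn'
  refine PrG_mono ?_ ?_ e1
  · rintro r3 _ ⟨c, hc, n, hn, hlt⟩
    refine ⟨c, hc, n, Finset.mem_range.2 hn, ?_⟩
    by_contra hnM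
    set w3 := ext (K \ (K1 ∪ K2)) r3 with hw3
    set w := glue K2 w2 (glue K1 w1 w3) with hw
    have a1 : ∀ k ∈ K1, w k = w1 k := fun k hk => by
      rw [hw, glue_not_mem _ _ _ (fun hk2 => Finset.disjoint_left.1 h12 hk hk2),
        glue_mem _ _ _ hk]
    have a2 : ∀ k ∈ K2, w k = w2 k := fun k hk => glue_mem _ _ _ hk
    have a3 : ∀ k ∈ K \ (K1 ∪ K2), w k = w3 k := fun k hk => by
      have hk' := (Finset.mem_sdiff.1 hk).2
      rw [Finset.mem_union, not_or] at hk'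
      rw [hw, glue_not_mem _ _ _ hk'.2, glue_not_mem _ _ _ hk'.1]
    have hag : ∀ z ∈ La, V w z = V w1 z := hV w w1 a1
    have hag' : ∀ z ∈ La.filter (fun z => ctx z = c), V w z = V w1 z :=
      fun z hz => hag z (Finset.mem_filter.1 hz).1
    obtain ⟨b1, b2⟩ := hdep c hc w w2 a2
    have hU1 := hU c hc w
    have hU2 := hU' c hc w
    rw [b1] at hU1
    rw [b2] at hU2
    have hnM' : ¬ Many (Pc c) w
        (TgA (Pc c) (La.filter (fun z => ctx z = c)) (V w1) n).card (X c n) (Bw c w2)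
        (Bw' c w2) ((m + 1) ^ 2 ^ (4 * (Pc c).h)) := by
      intro hh
      apply hnM
      refine many_congr (fun r hr i y hy => ?_) hh
      obtain ⟨k1, k2⟩ := hKP c hc r hr i y hy
      exact ⟨(a3 _ k1).symm, (a3 _ k2).symm⟩
    refine absurd (count_lab (hP c) w (La := La.filter (fun z => ctx z = c)) (V := V w)
      (CI := CI) (R0 := R0) hU1 hU2 ?_ ?_ (hleaf c hc w2 hw2lt hA2) hnM') (not_le.2 hlt)
    · intro t ht
      rw [TgA_congr hag' n] at ht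
      exact hX3 c n t ht
    · intro s
      refine le_trans (Finset.card_le_card ?_) (hm1 s)
      intro z hz
      obtain ⟨c1, c2⟩ := Finset.mem_filter.1 hz
      have c3 := (Finset.mem_filter.1 c1).1
      refine Finset.mem_filter.2 ⟨c3, ?_⟩
      rw [← hag z c3]
      exact c2
  · refine le_of_eq (Finset.sum_congr rfl (fun c _ => ?_))
    rw [Finset.sum_const, Finset.card_range, nsmul_eq_mul]

/-- **near pairs, assembly with abstract labels**, one context -/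
theorem near_lab (hP : P.Ok Mk) (hMk : ∀ k, 0 < Mk k) {K1 K2 K : Finset κ}
    (h12 : Disjoint K1 K2) (h1 : K1 ⊆ K) (h2 : K2 ⊆ K)
    {La : Finset α} {V : (κ → ℕ) → α → ℕ}
    (hV : ∀ w w' : κ → ℕ, (∀ k ∈ K1, w k = w' k) → ∀ z ∈ La, V w z = V w' z)
    (hKP : ∀ r < P.h, ∀ i, ∀ y ∈ P.Y r, P.key r i y ∈ K \ (K1 ∪ K2) ∧
      P.key' r i y ∈ K \ (K1 ∪ K2))
    (Bw Bw' U U' : (κ → ℕ) → Finset ℕ)
    (hdep : ∀ w w' : κ → ℕ, (∀ k ∈ K2, w k = w' k) → Bw w = Bw w' ∧ Bw' w = Bw' w')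
    (hU : ∀ w, Rep P (cU hP w) P.M (Bw w) (U w))
    (hU' : ∀ w, Rep P (cU' hP w) P.M' (Bw' w) (U' w))
    {n1 I R0 : ℕ} {Ir : ℕ → ℕ}
    (hTg : ∀ w, (∀ k, w k < Mk k) → ∀ n < n1, TgS P (TgA P La (V w) n) Ir)
    (hI : ∀ w, (∀ k, w k < Mk k) → ∀ n < n1, (TgA P La (V w) n).card ≤ I)
    {ρ Γ : ℝ} (hρ : 0 ≤ ρ)
    (hA : ∀ r < P.h, 80 * I * P.A r * P.p r 0 * P.p r 2 * Real.sqrt (P.q r 1) ≤ ρ * P.q r 1)
    (hB : ∀ r < P.h, 1 ≤ r → Ir r * P.A r * P.pc r ≤ ρ)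
    (hΓ : ∀ r < P.h, (P.q r 0 * P.q r 1 : ℕ) * (P.W r * P.q r 1) ≤ Γ) (hΓ' : P.W P.h ≤ Γ)
    {A : (κ → ℕ) → Prop} {δ : ℝ} (hbad : PrG Mk K2 A δ)
    (hPP : ∀ w : κ → ℕ, (∀ k, w k < Mk k) → ¬ A w → ∀ (J : ℕ) (X : ℕ → ℕ), J ≤ I →
      Tg P J X Ir → (∀ i < J, X i < n1) →
      PP P J X (Bw w) (Bw' w) * P.A P.h * P.pc P.h ≤ ρ)
    (hleaf : ∀ w : κ → ℕ, (∀ k, w k < Mk k) → ¬ A w → ∀ t, ((Bw w ×ˢ Bw' w).filter
      (fun q => P.M * P.L P.h * q.1 + P.M' * P.L P.h * q.2 = t)).card ≤ R0)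
    {CI : ℕ} {ε : ℝ} (hε : 0 ≤ ε)
    (hmult : PrG Mk K1 (fun w => ∃ s : ℕ, CI < (La.filter (fun z => V w z = s)).card) ε)
    {m : ℕ} (hm : 1 ≤ m) :
    PrG Mk K (fun w => ∃ n < n1, CI * ((m + 1) ^ 2 ^ (4 * P.h) * (Cd P * R0)) <
      ((La ×ˢ (U w ×ˢ U' w)).filter (fun z => V w z.1 + (z.2.1 + z.2.2) = n)).card)
      (δ + (ε + n1 * ((3 * P.h + 1) * Γ * ρ ^ (m + 1)))) := by
  classical
  have hLa : La.filter (fun _ => (() : Unit) = ()) = La :=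
    Finset.filter_true_of_mem (fun _ _ => rfl)
  have h := near_ctx (Pc := fun _ : Unit => P) (Cx := {()}) (fun _ => hP) hMk h12 h1 h2
    (La := La) (fun _ => ()) hV (fun _ _ => hKP) (fun _ => Bw) (fun _ => Bw') (fun _ => U)
    (fun _ => U') (fun _ _ => hdep) (fun _ _ => hU) (fun _ _ => hU') (n1 := n1) (I := I)
    (R0 := R0) (Ir := Ir)
    (fun _ _ => by rw [hLa]; exact hTg) (fun _ _ => by rw [hLa]; exact hI) hρ
    (fun _ _ => hA) (fun _ _ => hB) (fun _ _ => hΓ) (fun _ _ => hΓ') hbad (fun _ _ => hPP)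
    (fun _ _ => hleaf) hε hmult hm
  refine PrG_mono ?_ (le_of_eq ?_) h
  · rintro r _ ⟨n, hn, hlt⟩
    refine ⟨(), Finset.mem_singleton_self _, n, hn, ?_⟩
    rw [hLa]
    exact hlt
  · rw [Finset.sum_singleton]

end Pool.Agent.Helper21.T5b
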