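import Pool.Agent.Helper21.T5b.SZLab

/-!
# T5b, pairs across a SPLIT: few outer keys of the lower state

The lower state is not keyed by the newborn families, the outer key is the buffer coordinate.  The
buffer family is not hashed and has the same number of digits in both states, so the sum of the
codes determines the two buffer coordinates up to `2 * 1000038` choices.
-/

set_option autoImplicit false

namespace Pool.Agent.Helper21.T5b

open Finset Pool.Agent.Helper27.T4
open Pool.Agent.Helper37.T5b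
open Pool.Agent.Helper30.T5b hiding pz_prime pz_inj NL_pos
open Pool.Agent.Helper22.HW Pool.Agent.Helper22.SL Pool.Agent.Helper57.T5
open Pool.Agent.Helper39.T5 Pool.Agent.Helper84.T5b
open Pool.Agent.Helper48.T5b (SplitP Win Cpl c0_cast cast_congr2 mem_XJ)
open Pool.Agent.Helper54.T5b (SplitDig lowJ)
open Pool.Agent.Helper5.ET (bb era mask)

variable {m k s l' l : ℕ}

theorem okey_buffer {x x' : JF → ℕ} (hk : ¬ keyed m k (mL m k l'))
    (h : x (Sum.inr 0) = x' (Sum.inr 0)) : okey m k l' 0 x = okey m k l' 0 x' := by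
  unfold okey
  rw [if_pos rfl, if_pos rfl]
  funext i
  unfold maskJ okeyF
  rw [if_neg hk]
  by_cases hi : i = Sum.inr 0
  · rw [hi]
    simp [h]
  · rw [if_neg (by simpa using hi), if_neg (by simpa using hi)]

/-- **few outer keys of the lower state**, the prime `p` of the buffer family is a variable -/
theorem ctx_count_p (hD : SplitDig m k l' l) (hk : ¬ keyed m k (mL m k l'))
    {p : ℕ} (hpr : p.Prime) (hp2 : p ≠ 2) (hp : pJ k (sL m k l) (Sum.inr 0) = p)
    (hp' : pJ k (sL m k l') (Sum.inr 0) = p) (hm : 0 < m) (w : Key → ℕ) (n : ℕ)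
    (S : Finset LZ) (hS1 : ∀ z ∈ S, z.1.1 ∈ XJ m k l ∧ z.1.2 ∈ XJ m k l' ∧
      VZ m k l' l w z ≡ n [MOD Jn m k (sL m k l) l']) :
    (open Classical in (S.image (ctxZ m k l')).card) ≤ 2 * (p - 1) := by
  classical
  set a := aJ m k (sL m k l) l' (Sum.inr 0) with ha
  set T := S.image (fun z => (z.1.1 (Sum.inr 0), z.1.2 (Sum.inr 0))) with hT
  have e1 : aJ m k (sL m k l) (ef m k l 0) (Sum.inr 0) = a :=
    hD.buf _ (hD.ll.le.trans hD.le) le_rfl
  have e2 : aJ m k (sL m k l') (ef m k l' 0) (Sum.inr 0) = a := by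
    have h1 := hD.buf _ hD.le' hD.ee
    rw [Pool.Agent.Helper48.T5b.aJ_buf] at h1 ⊢
    exact h1
  have e3 : aJ m k (sL m k l) l (Sum.inr 0) = a := hD.buf _ hD.ll.le hD.le
  have e4 : aJ m k (sL m k l') l' (Sum.inr 0) = a := by
    rw [ha, Pool.Agent.Helper48.T5b.aJ_buf, Pool.Agent.Helper48.T5b.aJ_buf]
  have h1 : (S.image (ctxZ m k l')).card ≤ T.card := by
    have hsub : S.image (ctxZ m k l') ⊆ T.image (fun q : ℕ × ℕ =>
        okey m k l' 0 (fun i => if i = Sum.inr 0 then q.2 else 0)) := by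
      intro o ho
      rw [mem_image] at ho
      obtain ⟨z, hz, rfl⟩ := ho
      rw [mem_image]
      refine ⟨(z.1.1 (Sum.inr 0), z.1.2 (Sum.inr 0)), mem_image_of_mem _ hz, ?_⟩
      exact okey_buffer hk (by simp)
    exact (card_le_card hsub).trans card_image_le
  refine h1.trans ?_
  rcases Nat.eq_zero_or_pos a with h0 | h0
  · have h2 : T.card ≤ 1 := by
      refine le_trans (card_le_card (t := {((1 : ℕ), (1 : ℕ))}) ?_) (by simp)
      intro q hq
      rw [hT, mem_image] at hq
      obtain ⟨z, hz, rfl⟩ := hq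
      obtain ⟨a1, a2, -⟩ := hS1 z hz
      have b1 : z.1.1 (Sum.inr 0) = 1 := by
        rcases mem_XJ a1 (Sum.inr 0) with h2 | h2
        · exact h2.1
        · exact absurd (e3.trans h0) h2.1
      have b2 : z.1.2 (Sum.inr 0) = 1 := by
        rcases mem_XJ a2 (Sum.inr 0) with h2 | h2
        · exact h2.1
        · exact absurd (e4.trans h0) h2.1
      rw [b1, b2]
      exact mem_singleton_self _
    have h3 := hpr.two_le
    omega
  · have key := Pool.Agent.Helper3.T4.card_pairs_le hpr hp2 a a le_rfl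
      (((n : ℕ) : ZMod (p ^ a)) - ((w (Key.J l (Sum.inr 0) 0) : ℕ) : ZMod (p ^ a)) -
        ((w (Key.J l' (Sum.inr 0) 0) : ℕ) : ZMod (p ^ a))) T ?_
    · rw [Nat.sub_self, Nat.zero_div, pow_zero, mul_one] at key
      exact key
    · intro q hq
      rw [hT, mem_image] at hq
      obtain ⟨z, hz, rfl⟩ := hq
      obtain ⟨a1, a2, a3⟩ := hS1 z hz
      have c1 : (z.1.1 (Sum.inr 0)).Prime ∧ (z.1.1 (Sum.inr 0)).Coprime p ∧
          z.1.1 (Sum.inr 0) ^ 2 < p ^ a := by
        rcases mem_XJ a1 (Sum.inr 0) with h2 | h2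
        · exact absurd h2.2 (by rw [e3]; omega)
        · have h3 := h2.2.2.2
          have h4 := h2.2.2.1
          rw [e3, hp] at h3
          rw [hp] at h4
          exact ⟨h2.2.1, h4, h3⟩
      have c2 : (z.1.2 (Sum.inr 0)).Prime ∧ (z.1.2 (Sum.inr 0)).Coprime p ∧
          z.1.2 (Sum.inr 0) ^ 2 < p ^ a := by
        rcases mem_XJ a2 (Sum.inr 0) with h2 | h2
        · exact absurd h2.2 (by rw [e4]; omega)
        · have h3 := h2.2.2.2
          have h4 := h2.2.2.1
          rw [e4, hp'] at h3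
          rw [hp'] at h4
          exact ⟨h2.2.1, h4, h3⟩
      refine ⟨c1.1, c2.1, c1.2.1, c2.2.1, c1.2.2, c2.2.2, ?_⟩
      have m0 : ∀ x : JF → ℕ, maskJ (preJ m k l (Sum.inr 0)) x = 0 := by
        intro x
        funext i
        simp [maskJ, preJ]
      have m0' : ∀ x : JF → ℕ, maskJ (preJ m k l' (Sum.inr 0)) x = 0 := by
        intro x
        funext i
        simp [maskJ, preJ]
      have d1 := c0_cast m k l w z.1.1 (Sum.inr 0)
      have d2 := c0_cast m k l' w z.1.2 (Sum.inr 0)
      rw [m0] at d1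
      rw [m0'] at d2
      have d3 := cast_congr2 hp e1 d1
      have d4 := cast_congr2 hp' e2 d2
      have hdv : p ^ a ∣ Jn m k (sL m k l) l' := by
        have h9 := pow_dvd_NN (pJ k (sL m k l)) (aJ m k (sL m k l) l') (Sum.inr 0)
        rw [hp] at h9
        exact h9
      have hcs : p ^ a ∣ cs m k l 0 w (okey m k l 0 z.1.1) z.2 := by
        refine dvd_trans ?_ (Pool.Agent.Helper48.T5b.cs_dvd m k l 0 w _ _)
        refine dvd_trans ?_ (dvd_mul_right _ _)
        refine hdv.trans ?_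
        exact Pool.Agent.Helper48.T5b.Jn_dvd m k _ (hD.ll.le.trans (lt_ez hm _ _).le)
      have f1 : ((VZ m k l' l w z : ℕ) : ZMod (p ^ a)) = n :=
        (ZMod.natCast_eq_natCast_iff _ _ _).2 (a3.of_dvd hdv)
      have f2 : ((cs m k l 0 w (okey m k l 0 z.1.1) z.2 : ℕ) : ZMod (p ^ a)) = 0 :=
        (ZMod.natCast_eq_zero_iff _ _).2 hcs
      unfold VZ at f1
      push_cast at f1
      rw [f2, d3, d4] at f1
      rw [← f1]
      ring

theorem prime_buf : Nat.Prime 1000039 := by norm_num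

/-- the number of contexts -/
def NCx : ℕ := 2 * (1000039 - 1)

/-- **few outer keys of the lower state** -/
theorem SZ.ctx_count (hm : 0 < m) (h : SZ m k s l' l) (w : Key → ℕ) (n : ℕ)
    (S : Finset LZ) (hS1 : ∀ z ∈ S, z.1.1 ∈ XJ m k l ∧ z.1.2 ∈ XJ m k l' ∧
      VZ m k l' l w z ≡ n [MOD Jn m k (sL m k l) l']) :
    (open Classical in (S.image (ctxZ m k l')).card) ≤ NCx :=
  ctx_count_p h.D h.keyed' prime_buf (by decide) (Pool.Agent.Helper48.T5b.pJ_buf _ _)
    (Pool.Agent.Helper48.T5b.pJ_buf _ _) hm w n S hS1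

end Pool.Agent.Helper21.T5b
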