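import Pool.Agent.Helper21.T5b.SZRp
import Pool.Agent.Helper22.NEARs.Glue
import Pool.Agent.Helper39.T5b.SlInstS
import Pool.Agent.Helper39.T5b.RepF
import Pool.Agent.Helper45.T5b.Nb5V
import Pool.Agent.Helper57.T5b.S8
import Pool.Agent.Helper12.T5b.ZSize
import Pool.Agent.Helper37.T5b.NumB

/-!
# T5b, pairs across SPLIT without common front, short distance: assembly
-/

set_option autoImplicit false

namespace Pool.Agent.Helper21.T5b

open Finset Pool.Agent.Helper27.T4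
open Pool.Agent.Helper37.T5b
open Pool.Agent.Helper30.T5b hiding pz_prime pz_inj NL_pos
open Pool.Agent.Helper22.HW Pool.Agent.Helper22.SL Pool.Agent.Helper57.T5
open Pool.Agent.Helper39.T5 hiding deep
open Pool.Agent.Helper84.T5b Pool.Agent.Helper1.T5
open Pool.Agent.Helper48.T5b (SplitP Win Cpl)
open Pool.Agent.Helper54.T5b (SplitDig lowJ)
open Pool.Agent.Helper5.ET (bb era mask)
open Pool.Agent.Helper45.T5b (OK)
open Pool.Agent.Helper44.T5b (Zw)
open Pool.Agent.Helper22.NEARb (RegE wW)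
open Pool.Agent.Helper22.NEARs (Bw ZwO deep ZBad)
open Pool.Agent.Helper37.T5b.NumB (CDk)

variable {m k s l' l : ℕ}

theorem sz_sub (m s l' l : ℕ) : sz m s l' l - 1 = hz m s l' l := by
  unfold sz
  omega

/-- the constant of the levels -/
theorem Cd_PZ (hk : 2 ≤ k) (o : JF → ℕ) :
    Pool.Agent.Helper39.SL.Cd (PZ m k (hz m s l' l) l' l o) ≤ CDk k := by
  have h3 := hz_le_two m s l' l
  have hsp : 1 ≤ 2 * BP k := by
    have := BP_pos k
    omega
  have h1 : ∀ r ∈ range (PZ m k (hz m s l' l) l' l o).h,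
      ∏ i, (2 * ((PZ m k (hz m s l' l) l' l o).p r i - 1)) ≤ (2 * BP k) ^ 3 := by
    intro r _
    calc ∏ i, (2 * ((PZ m k (hz m s l' l) l' l o).p r i - 1)) ≤ ∏ _i : Fin 3, (2 * BP k) := by
          apply prod_le_prod'
          intro i _
          have h2 : (PZ m k (hz m s l' l) l' l o).p r i = pz k (sL m k l - (1 + r)) i := rfl
          have h4 := pz_le k (sL m k l - (1 + r)) i
          rw [h2]
          omega
      _ = (2 * BP k) ^ 3 := by rw [prod_const, card_univ, Fintype.card_fin]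
  unfold Pool.Agent.Helper39.SL.Cd CDk
  calc ∏ r ∈ range (PZ m k (hz m s l' l) l' l o).h,
        ∏ i, (2 * ((PZ m k (hz m s l' l) l' l o).p r i - 1)) ≤
        ∏ _r ∈ range (PZ m k (hz m s l' l) l' l o).h, (2 * BP k) ^ 3 := prod_le_prod' h1
    _ = ((2 * BP k) ^ 3) ^ (hz m s l' l) := by
        rw [prod_const, card_range]
        rfl
    _ ≤ ((2 * BP k) ^ 3) ^ 3 :=
        Nat.pow_le_pow_right (Nat.pos_of_ne_zero (by positivity)) (by omega)

/-- the event of the windows -/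
def WinBad (m k s l' l : ℕ) (R : ℝ) (w : Key → ℕ) : Prop :=
  (¬ RegE m k l (sz m s l' l) w ∨ ¬ RegE m k l' (hz m s l' l) w) ∨
    ZBad m k l' l (sz m s l' l) R w

theorem RegE_congr {m k l i : ℕ} {w w' : Key → ℕ} (h : Bw m k l i w = Bw m k l i w') :
    RegE m k l i w ↔ RegE m k l i w' := by
  unfold RegE
  have h' : Pool.Agent.Helper22.NEARb.Bw m k l i w = Pool.Agent.Helper22.NEARb.Bw m k l i w' := h
  rw [h']

theorem WinBad_congr (hm : 0 < m) (hl : bb 0 ≤ mL m k l) (hl' : bb 0 ≤ mL m k l') {R : ℝ}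
    {w w' : Key → ℕ} (h : ∀ q ∈ deep m k l l' (sz m s l' l), w q = w' q) :
    WinBad m k s l' l R w ↔ WinBad m k s l' l R w' := by
  obtain ⟨d1, d2⟩ := Pool.Agent.Helper22.NEARs.Bw_congr_deep hm hl hl' h
  rw [sz_sub] at d2
  have h1 := one_le_hz m s l' l
  have d3 := Pool.Agent.Helper22.NEARs.zbad_congr (R := R) hm hl hl'
    (show 2 ≤ sz m s l' l by unfold sz; omega) h
  unfold WinBad
  rw [RegE_congr d1, RegE_congr d2, d3]

/-- the probability of a failure -/
theorem fail_bound {γ : Type*} (O : Finset γ) {h N l n1 Cs A B W V : ℕ} {d ε : ℝ}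
    (hexp : ((A + B + Cs + 100 : ℕ) : ℝ) * l + V ≤ (N + 1 : ℕ) * d)
    (hn1 : (n1 : ℝ) ≤ Real.exp (Cs * l)) (hW : W ≤ l)
    (hO : (O.card : ℝ) ≤ Real.exp (28 * (W : ℝ))) {S : ℕ} (hS : S ≤ W) (hh : h ≤ 2) :
    (2 + (B : ℝ)) * Real.exp (-(V : ℝ)) + (ε + ∑ _c ∈ O, (n1 : ℝ) *
      ((3 * (h : ℝ) + 1) * Real.exp (42 * S) * Real.exp (-d) ^ (N + 1))) ≤
      ε + ((A + B + Cs + 100 : ℕ) : ℝ) * Real.exp (-(V : ℝ)) := by
  have h1 : Real.exp (-d) ^ (N + 1) = Real.exp (-((N + 1 : ℕ) * d)) := by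
    rw [← Real.exp_nat_mul]
    congr 1
    ring
  have hl0 : (0 : ℝ) ≤ l := Nat.cast_nonneg _
  have hA0 : (0 : ℝ) ≤ A := Nat.cast_nonneg _
  have hB0 : (0 : ℝ) ≤ B := Nat.cast_nonneg _
  have hC0 : (0 : ℝ) ≤ Cs := Nat.cast_nonneg _
  have hW' : (W : ℝ) ≤ l := Nat.cast_le.2 hW
  have hS' : (S : ℝ) ≤ l := Nat.cast_le.2 (hS.trans hW)
  have hh' : (h : ℝ) ≤ 2 := by exact_mod_cast hh
  have h2 : ∑ _c ∈ O, (n1 : ℝ) *
      ((3 * (h : ℝ) + 1) * Real.exp (42 * S) * Real.exp (-d) ^ (N + 1)) ≤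
        7 * Real.exp (-(V : ℝ)) := by
    rw [Finset.sum_const, nsmul_eq_mul, h1]
    calc (O.card : ℝ) * ((n1 : ℝ) *
        ((3 * (h : ℝ) + 1) * Real.exp (42 * S) * Real.exp (-((N + 1 : ℕ) * d))))
        ≤ Real.exp (28 * (l : ℝ)) * (Real.exp (Cs * l) *
          (7 * Real.exp (42 * l) *
            Real.exp (-(((A + B + Cs + 100 : ℕ) : ℝ) * l + V)))) := by
          have g1 : (O.card : ℝ) ≤ Real.exp (28 * (l : ℝ)) :=
            hO.trans (Real.exp_le_exp.2 (by linarith))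
          have g2 : Real.exp (42 * (S : ℝ)) ≤ Real.exp (42 * (l : ℝ)) :=
            Real.exp_le_exp.2 (by linarith)
          have g3 : Real.exp (-((N + 1 : ℕ) * d)) ≤
              Real.exp (-(((A + B + Cs + 100 : ℕ) : ℝ) * l + V)) :=
            Real.exp_le_exp.2 (by linarith)
          have g4 : 3 * (h : ℝ) + 1 ≤ 7 := by linarith
          have g5 : 0 ≤ 3 * (h : ℝ) + 1 := by positivity
          refine mul_le_mul g1 (mul_le_mul hn1 (mul_le_mul (mul_le_mul g4 g2
            (Real.exp_pos _).le (by norm_num)) g3 (Real.exp_pos _).le (by positivity))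
            (by positivity) (Real.exp_pos _).le) (by positivity) (Real.exp_pos _).le
      _ = 7 * Real.exp (28 * (l : ℝ) + Cs * l + 42 * l +
            -(((A + B + Cs + 100 : ℕ) : ℝ) * l + V)) := by
          rw [Real.exp_add, Real.exp_add, Real.exp_add]
          ring
      _ ≤ 7 * Real.exp (-(V : ℝ)) := by
          apply mul_le_mul_of_nonneg_left _ (by norm_num)
          apply Real.exp_le_exp.2
          push_cast
          nlinarith [mul_nonneg hA0 hl0, mul_nonneg hB0 hl0]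
  have h3 := Real.exp_pos (-(V : ℝ))
  push_cast
  nlinarith [mul_nonneg hA0 h3.le, mul_nonneg hC0 h3.le]

/-- **one pair**, the multiplicity of the labels is a hypothesis -/
theorem pair_of (hm : 2 ≤ m) (hk : 3 ≤ k) (hK : KeyI m k) (hN : NumI m k) (hW : PpI m k) :
    ∃ C K0 : ℕ, ∀ s l' l, K0 ≤ l' → SZ m k s l' l → ∀ K : Finset Key,
      keysOf m k l ⊆ K → keysOf m k l' ⊆ K → ∀ (CI : ℕ) (ε : ℝ), 0 ≤ ε →
      PrG (Mk m k) (keysV m k l l') (fun w => ∃ s' : ℕ, CI <
        ((LaZ m k l' l).filter (fun z => VZ m k l' l w z = s')).card) ε →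
      ∀ N : ℕ, 1 ≤ N → (C : ℝ) * l + SS m (bL m k l) ≤ (N + 1 : ℕ) * dZ m s l' l →
      PrG (Mk m k) K (fun w => ∃ n, C * (CI * ((N + 1) ^ 256 * SS m (bL m k l))) <
        Rp m k l l' w n) (ε + C * Real.exp (-(SS m (bL m k l) : ℝ))) := by
  classical
  have hm0 : 0 < m := by omega
  obtain ⟨k1, hK⟩ := hK
  obtain ⟨k2, hN⟩ := hN
  obtain ⟨k3, hW⟩ := hW
  obtain ⟨k4, hR⟩ := rpI hm0 k
  obtain ⟨k5, hL⟩ := Pool.Agent.Helper63.T5b.exists_lateN hm k 0
  obtain ⟨k6, hReg⟩ := Pool.Agent.Helper45.T5b.reg_all m k hm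
  obtain ⟨Cz, k7, hZ⟩ := Pool.Agent.Helper57.T5b.zbadS hm0 k
  obtain ⟨k8, Cs, hS⟩ := Pool.Agent.Helper12.T5b.sizeZS hm hk
  obtain ⟨k9, hc⟩ := Pool.Agent.Helper44.T5b.exists_conds hm0 k
  refine ⟨2 * 1000038 * (CDk k * Cz) + Cz + Cs + 100, k1 + k2 + k3 + k4 + k5 + k6 + k7 + k8 + k9,
    fun s l' l hl' h K hKl hKl' CI ε hε hmult N hN1 hexp => ?_⟩
  have hll := h.lt.le
  have hk2 : 2 ≤ k := by omega
  obtain ⟨b1, -, -, -⟩ := hc l (by omega)
  obtain ⟨b1', -, -, -⟩ := hc l' (by omega)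
  obtain ⟨K1, K2, K3, K4⟩ := hK s l' l (by omega) h
  have hLN := hL l' (by omega)
  obtain ⟨R1, R2⟩ := hR s l' l (by omega) h
  obtain ⟨S1, S2, -⟩ := hS l (by omega)
  have hr1 := h.P.rL1
  have hr1' := h.P.rL'
  have hh1 := one_le_hz m s l' l
  have hh2 := hz_le_two m s l' l
  have hks := h.P.ks
  have hsL := h.sl
  have hsL' := h.sl'
  have hSP : SplitP m k (sL m k l') l' l := by
    rw [hsL']
    exact h.P
  set R0 : ℕ := Cz * SS m (bL m k l) with hR0
  -- the windows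
  have e0 : bL m k l ≤ sL m k l - sz m s l' l := by
    unfold sz
    rw [hsL, h.P.b1]
    omega
  have e1 : SS m (bL m k l) ≤ wW m k l (sz m s l' l) := SS_mono m e0
  have e2 : SS m (bL m k l) ≤ wW m k l' (hz m s l' l) := by
    refine SS_mono m ?_
    rw [hsL', h.P.b1]
    omega
  have hbad : PrG (Mk m k) K (fun w => WinBad m k s l' l (R0 : ℝ) w)
      ((2 + Cz) * Real.exp (-(SS m (bL m k l) : ℝ))) := by
    have r1 := hReg l (sz m s l' l) (by omega) (by unfold sz; omega) (by unfold sz; omega) K hKl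
    have r2 := hReg l' (hz m s l' l) (by omega) (by omega) (by omega) K hKl'
    have r3 := hZ l' l (sz m s l' l) (by omega) hll h.near h.split (by unfold sz; omega)
      (by unfold sz; omega) K hKl hKl'
    refine PrG_mono (fun r _ hw => hw) ?_ (PrG_or (PrG_or r1 r2) r3)
    have f1 : Real.exp (-(wW m k l (sz m s l' l) : ℝ)) ≤
        Real.exp (-(SS m (bL m k l) : ℝ)) :=
      Real.exp_le_exp.2 (neg_le_neg (Nat.cast_le.2 e1))
    have f2 : Real.exp (-(wW m k l' (hz m s l' l) : ℝ)) ≤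
        Real.exp (-(SS m (bL m k l) : ℝ)) :=
      Real.exp_le_exp.2 (neg_le_neg (Nat.cast_le.2 e2))
    linarith
  have hbad2 := Pool.Agent.Helper22.NEARs.to_deep hKl hKl'
    (A := fun w => WinBad m k s l' l (R0 : ℝ) w)
    (fun w w' hww => WinBad_congr hm0 b1 b1' hww) hbad
  have hP : ∀ o : JF → ℕ, (PZ m k (hz m s l' l) l' l o).Ok (Mk m k) :=
    fun o => h.ok hm0 hk2 o hLN
  have hKV : keysV m k l l' ⊆ K := by
    unfold keysV
    exact (filter_subset _ _).trans (union_subset hKl hKl')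
  have key := L0.near_ctx (Pc := fun o => PZ m k (hz m s l' l) l' l o) (Cx := OK m k l' 0)
    hP (Mk_pos m k) (K1 := keysV m k l l') (K2 := deep m k l l' (sz m s l' l)) (K := K)
    K3 hKV (Pool.Agent.Helper22.NEARs.deep_sub hKl hKl') (La := LaZ m k l' l) (ctxZ m k l')
    (V := VZ m k l' l) K1 (K4 K hKl hKl')
    (fun _ w => Bw m k l (sz m s l' l) w) (fun _ w => Bw m k l' (hz m s l' l) w)
    (fun _ w => Zw m k l 1 w) (fun o w => ZwO m k l' 0 o w)
    (fun o _ w w' hww => by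
      obtain ⟨d1, d2⟩ := Pool.Agent.Helper22.NEARs.Bw_congr_deep hm0 b1 b1' hww
      rw [sz_sub] at d2
      exact ⟨d1, d2⟩)
    (fun o _ w => Pool.Agent.Helper39.T5b.rep_PF (hP o) hm0 (by omega) w)
    (fun o _ w => by
      have d1 := Pool.Agent.Helper39.T5b.rep_PF' hSP le_rfl (hP o) hm0 hh1 (by omega) w
      have d2 : 1 + hz m s l' l - 1 = hz m s l' l := by omega
      rw [d2] at d1
      exact d1)
    (n1 := 34 * NL m k l + 1) (I := LZn m k l' l l') (R0 := R0) (Ir := IrZ m k l' l)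
    (fun o _ w _ n _ => h.tgS hm0 _ o w n _)
    (fun o _ w _ n _ => h.card_tg hm0 _ o w n _)
    (ρ := Real.exp (-(dZ m s l' l))) (Γ := Real.exp (42 * SS m s)) (Real.exp_pos _).le
    (fun o _ => (hN s l' l (by omega) h o).hA) (fun o _ => (hN s l' l (by omega) h o).hB)
    (fun o _ => (hN s l' l (by omega) h o).hG) (fun o _ => (hN s l' l (by omega) h o).hG')
    (A := fun w => WinBad m k s l' l (R0 : ℝ) w) hbad2
    (fun o _ w _ hA J X hJ hX _ => by
      have hA' : ¬ WinBad m k s l' l (R0 : ℝ) w := hA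
      unfold WinBad at hA'
      rw [not_or, not_or, not_not, not_not] at hA'
      exact hW s l' l (by omega) h w hA'.1.1 hA'.1.2 o J X hJ hX)
    (fun o _ w _ hA t => by
      have hA' : ¬ WinBad m k s l' l (R0 : ℝ) w := hA
      unfold WinBad at hA'
      rw [not_or] at hA'
      have hl := Pool.Agent.Helper39.T5b.leaf_BwS_of_Zw (s := sz m s l' l) (R0 := R0) hm0 hSP
        (by unfold sz; omega) (by unfold sz; omega) (by unfold sz; omega) w (fun n => by
          by_contra hlt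
          refine hA'.2 ⟨0, n, ?_⟩
          rw [Pool.Agent.Helper22.NEARs.ZwO_pos (by rw [sz_sub]; omega)]
          exact Nat.cast_lt.2 (not_le.1 hlt)) t
      rw [sz_sub] at hl
      have hLh : (PZ m k (hz m s l' l) l' l o).L (PZ m k (hz m s l' l) l' l o).h =
          LL (QQ m k (sL m k l)) (sz m s l' l) := Pool.Agent.Helper39.T5b.PF_L _
      show ((Bw m k l (sz m s l' l) w ×ˢ Bw m k l' (hz m s l' l) w).filter
        (fun q => Jn m k (sL m k l) l * (PZ m k (hz m s l' l) l' l o).L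
          (PZ m k (hz m s l' l) l' l o).h * q.1 + Jn m k (sL m k l) l' *
          (PZ m k (hz m s l' l) l' l o).L (PZ m k (hz m s l' l) l' l o).h * q.2 = t)).card ≤ R0
      rw [hLh]
      exact hl)
    hε hmult hN1
  have hpow : 2 ^ (4 * hz m s l' l) ≤ 256 :=
    (Nat.pow_le_pow_right (by norm_num) (by omega : 4 * hz m s l' l ≤ 8)).trans (by norm_num)
  refine PrG_mono (fun r _ hw => ?_) ?_ key
  · by_contra hcon
    obtain ⟨n, hn⟩ := hw
    push Not at hcon
    rcases Nat.lt_or_ge n (34 * NL m k l + 1) with h1 | h1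
    · have h2 := R1 (ext K r) (CI * ((N + 1) ^ 256 * (CDk k * R0))) n
        (fun o ho => (hcon o ho n h1).trans (Nat.mul_le_mul_left CI
          (Nat.mul_le_mul (Nat.pow_le_pow_right (by omega) hpow)
            (Nat.mul_le_mul_right _ (Cd_PZ hk2 o)))))
      refine absurd (h2.trans ?_) (not_le.2 hn)
      have h3 : 2 * 1000038 * (CI * ((N + 1) ^ 256 * (CDk k * R0))) =
          (2 * 1000038 * (CDk k * Cz)) * (CI * ((N + 1) ^ 256 * SS m (bL m k l))) := by
        rw [hR0]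
        ring
      rw [h3]
      exact Nat.mul_le_mul_right _ (by omega)
    · rw [R2 _ n h1] at hn
      exact absurd hn (Nat.not_lt_zero _)
  · exact fail_bound (OK m k l' 0) hexp S1 S2 (by
      have d1 := Pool.Agent.Helper45.T5b.card_OK hm b1' (by omega : 1 ≤ sL m k l') 0
      have d2 : sL m k l' - 0 + 1 = sL m k l - 0 := by omega
      rw [d2] at d1
      exact d1) (SS_mono m (by omega : s ≤ sL m k l - 0)) hh2

end Pool.Agent.Helper21.T5b
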