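import Pool.Agent.Helper21.T5b.SZGlue

/-!
# T5b: `Blk CaseSplitInj RpC` from the lines
-/

set_option autoImplicit false

namespace Pool.Agent.Helper21.T5b

open Finset Pool.Agent.Helper27.T4
open Pool.Agent.Helper37.T5b
open Pool.Agent.Helper30.T5b hiding pz_prime pz_inj NL_pos
open Pool.Agent.Helper22.HW Pool.Agent.Helper22.SL Pool.Agent.Helper57.T5
open Pool.Agent.Helper39.T5 hiding deep
open Pool.Agent.Helper84.T5b Pool.Agent.Helper1.T5

variable {m k s l' l : ℕ}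

/-- the constant of the labels is bounded -/
theorem CZ_le (m k l' l : ℕ) : CZ m k l' l ≤ (2 * BP k) ^ 10 := by
  have hJ : ∀ i : JF, 2 * (pJ k (sL m k l) i - 1) ≤ 2 * BP k := by
    intro i
    have h : pJ k (sL m k l) i ≤ BP k := by
      rcases i with f | i
      · exact pr_le_BP k f
      · refine Fin.cases ?_ (fun f => ?_) i
        · exact (buf_lt_BP k).le
        · exact pz_le k (sL m k l + 1) f
    omega
  have h1 : (Pool.Agent.Helper98.T5b.M0 m k l' l).C ≤ (2 * BP k) ^ 7 := by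
    have e : (Pool.Agent.Helper98.T5b.M0 m k l' l).C =
        ∏ i : JF, (2 * (pJ k (sL m k l) i - 1)) := rfl
    rw [e]
    refine (Finset.prod_le_pow_card _ _ (2 * BP k) (fun i _ => hJ i)).trans (le_of_eq ?_)
    have e : Fintype.card JF = 7 := by
      rw [Fintype.card_sum, Fintype.card_fin, Fintype.card_fin]
    rw [Finset.card_univ, e]
  have h2 : ∏ f, (2 * (pz k (sL m k l) f - 1)) ≤ (2 * BP k) ^ 3 := by
    refine (Finset.prod_le_pow_card _ _ (2 * BP k) (fun i _ => ?_)).trans (le_of_eq ?_)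
    · have := pz_le k (sL m k l) i
      omega
    · rw [Finset.card_univ, Fintype.card_fin]
  unfold CZ
  calc (Pool.Agent.Helper98.T5b.M0 m k l' l).C * ∏ f, (2 * (pz k (sL m k l) f - 1))
      ≤ (2 * BP k) ^ 7 * (2 * BP k) ^ 3 := Nat.mul_le_mul h1 h2
    _ = _ := by rw [← pow_add]

/-- the multiplicity of the labels below the joint front of the lower state -/
theorem SZ.mult_inj (hm : 0 < m) (h : SZ m k s l' l) (hf : l ≤ ef m k l' 0) (w : Key → ℕ)
    (s' : ℕ) : ((LaZ m k l' l).filter (fun z => VZ m k l' l w z = s')).card ≤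
      (2 * BP k) ^ 10 := by
  have hr1 := h.P.rL1
  refine le_trans ?_ (CZ_le m k l' l)
  exact inj_split hm h.D (by omega) h.zf0 h.Qk h.AA hf w s'

theorem count_real {c C X Y Z : ℕ} {C1 L : ℝ} (h : c ≤ C * (X * (Y * Z)))
    (h3 : ((Y * (C * Z) : ℕ) : ℝ) ≤ C1 * L) : (c : ℝ) ≤ (X : ℝ) * C1 * L := by
  have h1 : (c : ℝ) ≤ ((C * (X * (Y * Z)) : ℕ) : ℝ) := Nat.cast_le.2 h
  have h2 : ((C * (X * (Y * Z)) : ℕ) : ℝ) = (X : ℝ) * ((Y * (C * Z) : ℕ) : ℝ) := by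
    push_cast
    ring
  rw [h2] at h1
  refine h1.trans ?_
  rw [mul_assoc]
  exact mul_le_mul_of_nonneg_left h3 (Nat.cast_nonneg _)

/-- **CaseSplitInj**, from the lines -/
theorem blk_splitInj_of (hK : ∀ m, 2 ≤ m → KeyI m (m ^ 2)) (hN : ∀ m, 2 ≤ m → NumI m (m ^ 2))
    (hW : ∀ m, 2 ≤ m → PpI m (m ^ 2)) (hE : EndI) : Blk CaseSplitInj RpC := by
  obtain ⟨E, m0, hE⟩ := hE
  refine ⟨E, m0 + 2, fun m hm => ?_⟩
  have hm2 : 2 ≤ m := by omega
  have hk : 3 ≤ m ^ 2 := by nlinarith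
  obtain ⟨C, k1, hP⟩ := pair_of hm2 hk (hK m hm2) (hN m hm2) (hW m hm2)
  obtain ⟨C1, c0, k2, hC1, hc0, hE⟩ := hE m (by omega) C
  obtain ⟨k3, hS⟩ := exists_SZ (m := m) (by omega) (m ^ 2)
  refine ⟨k1 + k2 + k3, ((2 * BP (m ^ 2)) ^ 10 : ℕ) * C1, c0, C, by positivity, hc0,
    Nat.cast_nonneg _, ?_⟩
  intro l l' hl' hll hPl K hK1 hK2
  have h := hS l l' (by omega) hll hPl
  obtain ⟨e1, -, N, hN1, hN2, hN3⟩ := hE _ l' l (by omega) h
  have key := hP _ l' l (by omega) h K hK1 hK2 ((2 * BP (m ^ 2)) ^ 10) 0 le_rfl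
    (PrG_false (fun r _ hr => by
      obtain ⟨s', hs'⟩ := hr
      exact absurd (h.mult_inj (by omega) hPl.2.2 _ s') (not_le.2 hs')) le_rfl) N hN1 hN2
  rw [← Pool.Agent.Helper22.NEAR.PrG_iff_PrLe]
  refine PrG_mono (fun r _ hw => ?_) ?_ key
  · obtain ⟨c, ⟨n, hc⟩, hn⟩ := hw
    subst hc
    refine ⟨n, ?_⟩
    by_contra hcon
    exact absurd (count_real (not_lt.1 hcon) hN3) (not_le.2 hn)
  · rw [zero_add]
    exact mul_le_mul_of_nonneg_left (Real.exp_le_exp.2 (neg_le_neg e1)) (Nat.cast_nonneg _)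

end Pool.Agent.Helper21.T5b
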