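import Pool.Agent.Helper21.T5b.SZNum
import Pool.Agent.Helper21.T5b.SZTg

/-!
# T5b, CaseSplitInj (and short distance of CaseSplitTwo): the lines

`s = sL m k l'`, `hz m s l' l` static levels (1 or 2), windows `1 + hz` of `l`, `hz` of `l'`.
-/

set_option autoImplicit false

namespace Pool.Agent.Helper21.T5b

open Finset Pool.Agent.Helper27.T4
open Pool.Agent.Helper37.T5b
open Pool.Agent.Helper30.T5b hiding pz_prime pz_inj NL_pos
open Pool.Agent.Helper22.HW Pool.Agent.Helper22.SL Pool.Agent.Helper57.T5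
open Pool.Agent.Helper39.T5 Pool.Agent.Helper84.T5b Pool.Agent.Helper1.T5
open Pool.Agent.Helper48.T5b (SplitP Win Cpl)
open Pool.Agent.Helper54.T5b (SplitDig lowJ)
open Pool.Agent.Helper5.ET (bb era mask)
open Pool.Agent.Helper45.T5b (OK)
open Pool.Agent.Helper44.T5b (Zw)
open Pool.Agent.Helper22.NEARb (RegE)
open Pool.Agent.Helper22.NEARs (Bw ZwO deep)

/-- index (for `l`) of the windows below the levels used -/
noncomputable abbrev sz (m s l' l : ℕ) : ℕ := 1 + hz m s l' l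

/-- the exponent of `ρ` -/
noncomputable def dZ (m s l' l : ℕ) : ℝ := (SS m (s - hz m s l' l) : ℝ) / 200

/-! ## keys of the labels -/

/-- the keys of the labels of a pair: joint keys, keys of the static level `0` of `l` -/
def isV (l : ℕ) : Key → Prop
  | Key.J _ _ _ => True
  | Key.S l0 u _ _ _ => l0 = l ∧ u = 0
  | _ => False

open Classical in
/-- the keys of the labels -/
noncomputable def keysV (m k l l' : ℕ) : Finset Key :=
  (keysOf m k l ∪ keysOf m k l').filter (isV l)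

/-- line K: dependence on the keys -/
def KeyI (m k : ℕ) : Prop := ∃ K0 : ℕ, ∀ s l' l, K0 ≤ l' → SZ m k s l' l →
    (∀ w w' : Key → ℕ, (∀ q ∈ keysV m k l l', w q = w' q) →
      ∀ z ∈ LaZ m k l' l, VZ m k l' l w z = VZ m k l' l w' z) ∧
    ((∀ x ∈ XJ m k l, ∀ i, Key.J l i (maskJ (preJ m k l i) x) ∈ keysV m k l l') ∧
      (∀ x ∈ XJ m k l', ∀ i, Key.J l' i (maskJ (preJ m k l' i) x) ∈ keysV m k l l') ∧
      (∀ x ∈ XJ m k l, ∀ y ∈ Ys m k l 0, ∀ f,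
        Key.S l 0 f (okey m k l 0 x) (mask (univ.filter (fun g => g < f)) y) ∈
          keysV m k l l')) ∧
    Disjoint (keysV m k l l') (deep m k l l' (sz m s l' l)) ∧
    ∀ K, keysOf m k l ⊆ K → keysOf m k l' ⊆ K → ∀ o ∈ OK m k l' 0,
      ∀ r < hz m s l' l, ∀ i, ∀ y ∈ (PZ m k (hz m s l' l) l' l o).Y r,
        (PZ m k (hz m s l' l) l' l o).key r i y ∈
          K \ (keysV m k l l' ∪ deep m k l l' (sz m s l' l)) ∧
        (PZ m k (hz m s l' l) l' l o).key' r i y ∈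
          K \ (keysV m k l l' ∪ deep m k l l' (sz m s l' l))

/-! ## numbers -/

/-- the numbers of a block -/
structure NumZI (m k s l' l : ℕ) (o : JF → ℕ) : Prop where
  hA : ∀ r < hz m s l' l, 80 * (LZn m k l' l l' : ℝ) * (PZ m k (hz m s l' l) l' l o).A r *
    (PZ m k (hz m s l' l) l' l o).p r 0 * (PZ m k (hz m s l' l) l' l o).p r 2 *
      Real.sqrt ((PZ m k (hz m s l' l) l' l o).q r 1) ≤
        Real.exp (-(dZ m s l' l)) * (PZ m k (hz m s l' l) l' l o).q r 1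
  hB : ∀ r < hz m s l' l, 1 ≤ r → (IrZ m k l' l r : ℝ) *
    (PZ m k (hz m s l' l) l' l o).A r * (PZ m k (hz m s l' l) l' l o).pc r ≤
      Real.exp (-(dZ m s l' l))
  hG : ∀ r < hz m s l' l, (((PZ m k (hz m s l' l) l' l o).q r 0 *
    (PZ m k (hz m s l' l) l' l o).q r 1 : ℕ) : ℝ) *
      ((PZ m k (hz m s l' l) l' l o).W r * (PZ m k (hz m s l' l) l' l o).q r 1) ≤
        Real.exp (42 * SS m s)
  hG' : (PZ m k (hz m s l' l) l' l o).W (hz m s l' l) ≤ Real.exp (42 * SS m s)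

/-- line N: the numbers -/
def NumI (m k : ℕ) : Prop := ∃ K0 : ℕ, ∀ s l' l, K0 ≤ l' → SZ m k s l' l →
    ∀ o : JF → ℕ, NumZI m k s l' l o

/-- line W: regular windows -/
def PpI (m k : ℕ) : Prop := ∃ K0 : ℕ, ∀ s l' l, K0 ≤ l' → SZ m k s l' l →
    ∀ w : Key → ℕ, RegE m k l (sz m s l' l) w → RegE m k l' (hz m s l' l) w →
    ∀ (o : JF → ℕ) (J : ℕ) (X : ℕ → ℕ), J ≤ LZn m k l' l l' →
      Tg (PZ m k (hz m s l' l) l' l o) J X (IrZ m k l' l) →
      PP (PZ m k (hz m s l' l) l' l o) J X (Bw m k l (sz m s l' l) w)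
        (Bw m k l' (hz m s l' l) w) * (PZ m k (hz m s l' l) l' l o).A (hz m s l' l) *
          (PZ m k (hz m s l' l) l' l o).pc (hz m s l' l) ≤ Real.exp (-(dZ m s l' l))

/-- line E: the exponents -/
def EndI : Prop := ∃ E m0 : ℕ, ∀ m, m0 ≤ m → ∀ C : ℕ, ∃ (C1 c0 : ℝ) (K0 : ℕ), 0 ≤ C1 ∧ 0 < c0 ∧
    ∀ s l' l, K0 ≤ l' → SZ m (m ^ 2) s l' l →
      (l : ℝ) ^ c0 ≤ SS m (bL m (m ^ 2) l) ∧ bL m (m ^ 2) l + 3 ≤ s ∧
      ∃ N : ℕ, 1 ≤ N ∧
        (C : ℝ) * l + SS m (bL m (m ^ 2) l) ≤ (N + 1 : ℕ) * dZ m s l' l ∧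
        (((N + 1) ^ 256 * (C * SS m (bL m (m ^ 2) l)) : ℕ) : ℝ) ≤
          C1 * (l : ℝ) ^ ((E : ℝ) / (m : ℝ))

/-- line R: the number of representations from the contexts; range -/
def RpI (m k : ℕ) : Prop := ∃ K0 : ℕ, ∀ s l' l, K0 ≤ l' → SZ m k s l' l →
    (∀ (w : Key → ℕ) (R n : ℕ), (∀ o ∈ OK m k l' 0,
      (((LaZ m k l' l).filter (fun z => ctxZ m k l' z = o) ×ˢ
        (Zw m k l 1 w ×ˢ ZwO m k l' 0 o w)).filter
          (fun z => VZ m k l' l w z.1 + (z.2.1 + z.2.2) = n)).card ≤ R) →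
      Rp m k l l' w n ≤ 2 * 1000038 * R) ∧
    ∀ (w : Key → ℕ) (n : ℕ), 34 * NL m k l + 1 ≤ n → Rp m k l l' w n = 0

end Pool.Agent.Helper21.T5b
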