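import Pool.Agent.Helper21.T5b.SZInj
import Pool.Agent.Helper21.T5b.SZNumI
import Pool.Agent.Helper12.T5b.SZKey
import Pool.Agent.Helper53.T5b.EndI

/-!
# T5b: `Blk CaseSplitInj RpC`
-/

set_option autoImplicit false

namespace Pool.Agent.Helper21.T5b

open Pool.Agent.Helper84.T5b

/-- **the pairs across SPLIT without common front, below the joint front of the lower state** -/
theorem blk_splitInj : Blk CaseSplitInj RpC :=
  blk_splitInj_of
    (fun m hm => Pool.Agent.Helper12.T5b.keyI hm (by nlinarith))
    (fun m hm => numI hm (by nlinarith))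
    (fun m hm => Pool.Agent.Helper45.T5b.ppI hm (by nlinarith))
    Pool.Agent.Helper53.T5b.endI

end Pool.Agent.Helper21.T5b
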